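import Pool.Agent.K4H30.PC.Prob

/-! Bond percolation on `ℤ^d`: the comparison of `τ(x)` with the values at the neighbours. -/

set_option autoImplicit false
open MeasureTheory ProbabilityTheory

namespace Pool.Agent.K4H30.PC

variable {d : ℕ}

/-- The two-point function. -/
noncomputable def tau (p : NNReal) (hp : p ≤ 1) (x : Fin d → ℤ) : ℝ :=
  ((P d p hp) {ω : Om d | (G ω).Reachable 0 x}).toReal

theorem partition {Ω ι : Type*} [MeasurableSpace Ω] (μ : Measure Ω) [IsProbabilityMeasure μ]
    [Fintype ι] (f : Ω → ι) (hf : ∀ i, MeasurableSet {ω | f ω = i}) (A : Set Ω)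
    (hA : MeasurableSet A) : μ.real A = ∑ i, μ.real (A ∩ {ω | f ω = i}) := by
  classical
  have h : A = ⋃ i ∈ (Finset.univ : Finset ι), (A ∩ {ω | f ω = i}) := by
    ext ω
    simp
  conv_lhs => rw [h]
  refine measureReal_biUnion_finset ?_ fun i _ => hA.inter (hf i)
  intro i _ j _ hij
  refine Set.disjoint_left.2 ?_
  rintro ω ⟨-, h1⟩ ⟨-, h2⟩
  exact hij (h1.symm.trans h2)

open Classical in
/-- The neighbours of `x` connected to `0`. -/
noncomputable def con (x : Fin d → ℤ) (ω : Om d) : Finset (Fin d × Bool) :=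
  Finset.univ.filter fun j => (G ω).Reachable 0 (nb x j)

theorem meas_con (x : Fin d → ℤ) (S : Finset (Fin d × Bool)) :
    MeasurableSet {ω : Om d | con x ω = S} := by
  classical
  have : {ω : Om d | con x ω = S} =
      ⋂ j, {ω : Om d | (G ω).Reachable 0 (nb x j) ↔ j ∈ S} := by
    ext ω
    simp only [Set.mem_setOf_eq, Set.mem_iInter, con, Finset.ext_iff, Finset.mem_filter,
      Finset.mem_univ, true_and]
  rw [this]
  refine MeasurableSet.iInter fun j => ?_
  by_cases hj : j ∈ S
  · simpa only [hj, iff_true] using meas_reach 0 (nb x j)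
  · simp only [hj, iff_false]
    exact (meas_reach 0 (nb x j)).compl

theorem meas_rm (x : Fin d → ℤ) : Measurable (rm x : Om d → Om d) := by
  refine measurable_pi_iff.2 fun e => ?_
  by_cases he : e ∈ Set.range (ed x)
  · have : (fun ω : Om d => rm x ω e) = fun _ => false := by
      funext ω
      unfold rm
      rw [if_pos he]
    rw [this]
    exact measurable_const
  · have : (fun ω : Om d => rm x ω e) = fun ω => ω e := by
      funext ω
      unfold rm
      rw [if_neg he]
    rw [this]
    exact measurable_pi_apply e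

theorem meas_star (x : Fin d → ℤ) (C : Set (Fin d × Bool → Bool)) :
    MeasurableSet {ω : Om d | star x ω ∈ C} := by
  have h : Measurable (star x : Om d → (Fin d × Bool → Bool)) :=
    measurable_pi_iff.2 fun j => measurable_pi_apply _
  exact h (Set.toFinite C).measurableSet

theorem real_inter (p : NNReal) (hp : p ≤ 1) (x : Fin d → ℤ) (S : Finset (Fin d × Bool))
    (C : Set (Fin d × Bool → Bool)) :
    (P d p hp).real ({ω | con x (rm x ω) = S} ∩ {ω | star x ω ∈ C}) =
      (P d p hp).real {ω | con x (rm x ω) = S} * (P d p hp).real {ω | star x ω ∈ C} := by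
  have h := (indep_star p hp x).measure_inter_preimage_eq_mul {ω : Om d | con x ω = S} C
    (meas_con x S) (Set.toFinite C).measurableSet
  rw [measureReal_def, measureReal_def, measureReal_def, ← ENNReal.toReal_mul]
  exact congrArg ENNReal.toReal h

/-- `some edge of S at x is open` -/
def Op (S : Finset (Fin d × Bool)) : Set (Fin d × Bool → Bool) := {c | ∃ j ∈ S, c j = true}

theorem real_Op (p : NNReal) (hp : p ≤ 1) (x : Fin d → ℤ) (S : Finset (Fin d × Bool)) :
    (P d p hp).real {ω | star x ω ∈ Op S} = 1 - (1 - (p : ℝ)) ^ S.card := by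
  have h1 := real_cyl p hp x ∅ S (Finset.disjoint_empty_left S)
  have h2 : {ω : Om d | star x ω ∈ Op S} =
      {ω : Om d | (∀ j ∈ (∅ : Finset (Fin d × Bool)), ω (ed x j) = true) ∧
        ∀ j ∈ S, ω (ed x j) = false}ᶜ := by
    ext ω
    simp only [Op, star, Set.mem_setOf_eq, Set.mem_compl_iff, Finset.notMem_empty,
      IsEmpty.forall_iff, implies_true, true_and, not_forall, Bool.not_eq_false, exists_prop]
  have hm : MeasurableSet {ω : Om d | (∀ j ∈ (∅ : Finset (Fin d × Bool)), ω (ed x j) = true) ∧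
        ∀ j ∈ S, ω (ed x j) = false} := by
    have := (meas_star x (Op S)).compl
    rw [h2, compl_compl] at this
    exact this
  rw [h2, probReal_compl_eq_one_sub hm, h1]
  simp

theorem real_Op2 (p : NNReal) (hp : p ≤ 1) (x : Fin d → ℤ) (S : Finset (Fin d × Bool))
    (j : Fin d × Bool) (hj : j ∉ S) :
    (P d p hp).real {ω | star x ω ∈ {c | c j = true} ∩ Op S} =
      p * (1 - (1 - (p : ℝ)) ^ S.card) := by
  have h1 := real_cyl p hp x {j} S (Finset.disjoint_singleton_left.2 hj)
  have h0 := real_cyl p hp x {j} ∅ (Finset.disjoint_empty_right _)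
  have hA : {ω : Om d | (∀ j' ∈ ({j} : Finset (Fin d × Bool)), ω (ed x j') = true) ∧
        ∀ j ∈ (∅ : Finset (Fin d × Bool)), ω (ed x j) = false} =
      {ω : Om d | star x ω ∈ {c | c j = true} ∩ Op S} ∪
      {ω : Om d | (∀ j' ∈ ({j} : Finset (Fin d × Bool)), ω (ed x j') = true) ∧
        ∀ j ∈ S, ω (ed x j) = false} := by
    ext ω
    simp only [Op, star, Set.mem_setOf_eq, Finset.notMem_empty, IsEmpty.forall_iff, implies_true,
      and_true, Finset.mem_singleton, forall_eq, Set.mem_inter_iff, Set.mem_union]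
    constructor
    · intro h
      by_cases h2 : ∃ j ∈ S, ω (ed x j) = true
      · exact Or.inl ⟨h, h2⟩
      · right
        refine ⟨h, fun j' hj' => ?_⟩
        by_contra h3
        exact h2 ⟨j', hj', by simpa using h3⟩
    · rintro (h | h)
      · exact h.1
      · exact h.1
  have hdisj : Disjoint {ω : Om d | star x ω ∈ {c | c j = true} ∩ Op S}
      {ω : Om d | (∀ j' ∈ ({j} : Finset (Fin d × Bool)), ω (ed x j') = true) ∧
        ∀ j ∈ S, ω (ed x j) = false} := by
    refine Set.disjoint_left.2 ?_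
    rintro ω ⟨-, j', hj', h⟩ ⟨-, h2⟩
    have h3 := h2 j' hj'
    simp only [star] at h
    rw [h] at h3
    exact Bool.noConfusion h3
  have hm : MeasurableSet {ω : Om d | (∀ j' ∈ ({j} : Finset (Fin d × Bool)),
      ω (ed x j') = true) ∧ ∀ j ∈ S, ω (ed x j) = false} :=
    meas_star x {c | (∀ j' ∈ ({j} : Finset (Fin d × Bool)), c j' = true) ∧
      ∀ j ∈ S, c j = false}
  have h3 := measureReal_union (μ := P d p hp) hdisj hm
  rw [← hA, h0, h1] at h3
  simp only [Finset.card_singleton, pow_one, Finset.card_empty, pow_zero, mul_one] at h3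
  linarith

/-- **The comparison.** For `x ≠ 0` the sum of the two-point function over the `2 d` neighbours of
`x` is at least `(1/p + (2d - 1) p) τ(x)` (with equality on a tree). -/
theorem compare (p : NNReal) (hp : p ≤ 1) (h0 : 0 < p) (x : Fin d → ℤ) (hx : x ≠ 0) :
    (1 / (p : ℝ) + (2 * d - 1) * p) * tau p hp x ≤ ∑ j, tau p hp (nb x j) := by
  classical
  have hp0 : (0 : ℝ) < p := by exact_mod_cast h0
  have hp1 : (p : ℝ) ≤ 1 := by exact_mod_cast hp
  set μ := P d p hp with hμ
  have hBm : ∀ S, MeasurableSet {ω : Om d | con x (rm x ω) = S} := fun S =>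
    (meas_rm x) (meas_con x S)
  -- `τ(x)`
  have hx1 : tau p hp x = ∑ S, μ.real {ω : Om d | con x (rm x ω) = S} *
      (1 - (1 - (p : ℝ)) ^ S.card) := by
    show μ.real {ω : Om d | (G ω).Reachable 0 x} = _
    rw [partition μ (fun ω => con x (rm x ω)) hBm _ (meas_reach 0 x)]
    refine Finset.sum_congr rfl fun S _ => ?_
    rw [← real_Op p hp x S, ← real_inter p hp x S (Op S)]
    congr 1
    ext ω
    simp only [Set.mem_inter_iff, Set.mem_setOf_eq, fact1 x hx ω, Op, star]
    constructor
    · rintro ⟨⟨j, h1, h2⟩, h3⟩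
      refine ⟨h3, j, ?_, h2⟩
      rw [← h3, con, Finset.mem_filter]
      exact ⟨Finset.mem_univ _, h1⟩
    · rintro ⟨h3, j, h1, h2⟩
      rw [← h3, con, Finset.mem_filter] at h1
      exact ⟨⟨j, h1.2, h2⟩, h3⟩
  -- `τ(y)`
  have hy1 : ∀ j, ∑ S, μ.real {ω : Om d | con x (rm x ω) = S} *
      (if j ∈ S then 1 else p * (1 - (1 - (p : ℝ)) ^ S.card)) ≤ tau p hp (nb x j) := by
    intro j
    show _ ≤ μ.real {ω : Om d | (G ω).Reachable 0 (nb x j)}
    rw [partition μ (fun ω => con x (rm x ω)) hBm _ (meas_reach 0 (nb x j))]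
    refine Finset.sum_le_sum fun S _ => ?_
    by_cases hj : j ∈ S
    · rw [if_pos hj, mul_one]
      refine measureReal_mono ?_
      intro ω hω
      have hω' : con x (rm x ω) = S := hω
      refine ⟨?_, hω⟩
      rw [← hω', con, Finset.mem_filter] at hj
      exact fact2 x (nb x j) ω hj.2
    · rw [if_neg hj, ← real_Op2 p hp x S j hj,
        ← real_inter p hp x S ({c | c j = true} ∩ Op S)]
      refine measureReal_mono ?_
      rintro ω ⟨hω, hω2⟩
      have hω' : con x (rm x ω) = S := hω
      obtain ⟨h1, j', h2, h3⟩ := hω2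
      refine ⟨?_, hω⟩
      rw [← hω', con, Finset.mem_filter] at h2
      exact fact3 x ω j ⟨j', h2.2, h3⟩ h1
  rw [hx1]
  refine le_trans ?_ (Finset.sum_le_sum fun j _ => hy1 j)
  rw [Finset.sum_comm, Finset.mul_sum]
  refine Finset.sum_le_sum fun S _ => ?_
  rw [← Finset.mul_sum]
  have hcard : ∑ j, (if j ∈ S then (1 : ℝ) else p * (1 - (1 - (p : ℝ)) ^ S.card)) =
      S.card + (2 * d - S.card) * (p * (1 - (1 - (p : ℝ)) ^ S.card)) := by
    rw [Finset.sum_ite, Finset.sum_const, Finset.sum_const, nsmul_eq_mul, nsmul_eq_mul, mul_one]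
    have e1 : (Finset.univ.filter fun j => j ∈ S) = S := by
      ext j; simp
    have e2 : ((Finset.univ.filter fun j => j ∉ S).card : ℝ) = 2 * d - S.card := by
      have h1 := Finset.card_filter_add_card_filter_not (s := (Finset.univ : Finset (Fin d × Bool)))
        (fun j => j ∈ S)
      rw [e1] at h1
      have h2 : (Finset.univ : Finset (Fin d × Bool)).card = 2 * d := by
        rw [Finset.card_univ, Fintype.card_prod, Fintype.card_fin, Fintype.card_bool, mul_comm]
      rw [h2] at h1
      have h3 : ((S.card + (Finset.univ.filter fun j => j ∉ S).card : ℕ) : ℝ) = ((2 * d : ℕ) : ℝ) := by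
        exact_mod_cast h1
      push_cast at h3
      linarith
    rw [e1, e2]
  rw [hcard]
  have hn := num3 (p : ℝ) (2 * d) hp0 hp1 S.card
  have hnn : 0 ≤ μ.real {ω : Om d | con x (rm x ω) = S} := measureReal_nonneg
  calc _ = μ.real {ω : Om d | con x (rm x ω) = S} *
        ((1 / (p : ℝ) + (2 * d - 1) * p) * (1 - (1 - (p : ℝ)) ^ S.card)) := by ring
    _ ≤ _ := mul_le_mul_of_nonneg_left hn hnn

end Pool.Agent.K4H30.PC
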