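import Pool.Agent.K4H30.PC.Four

/-! Bond percolation on `ℤ^d`: the infrared bound. -/

set_option autoImplicit false
open MeasureTheory ProbabilityTheory

namespace Pool.Agent.K4H30.PC

variable {d : ℕ}

theorem tau_zero (p : NNReal) (hp : p ≤ 1) : tau p hp (0 : Fin d → ℤ) = 1 := by
  have : {ω : Om d | (G ω).Reachable 0 0} = Set.univ := by
    ext ω
    simp
  unfold tau
  rw [this]
  simp

theorem tau_nonneg (p : NNReal) (hp : p ≤ 1) (x : Fin d → ℤ) : 0 ≤ tau p hp x :=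
  ENNReal.toReal_nonneg

theorem tau_nb_zero (p : NNReal) (hp : p ≤ 1) (j : Fin d × Bool) :
    (p : ℝ) ≤ tau p hp (nb (0 : Fin d → ℤ) j) := by
  have h0 := real_cyl p hp (0 : Fin d → ℤ) {j} ∅ (Finset.disjoint_empty_right _)
  simp only [Finset.card_singleton, pow_one, Finset.card_empty, pow_zero, mul_one] at h0
  rw [← h0]
  show _ ≤ (P d p hp).real {ω : Om d | (G ω).Reachable 0 (nb 0 j)}
  refine measureReal_mono ?_
  rintro ω ⟨h, -⟩
  exact ((adj_iff ω 0 (nb 0 j)).2 ⟨j, rfl, h j (Finset.mem_singleton_self j)⟩).reachable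

/-- The infrared inequality for all `p` with finite susceptibility. -/
theorem infrared (hd : 0 < d) (p : NNReal) (hp : p ≤ 1) (h0 : 0 < p)
    (hs : Summable (tau p hp : (Fin d → ℤ) → ℝ)) (k : Fin d → ℝ) :
    (∑' x, tau p hp x * Real.cos (dot k x)) * (1 - (1 / (d : ℝ)) * ∑ i : Fin d, Real.cos (k i)) ≤
      2 * (1 - p) + max 0 ((2 * d - 1) * (p : ℝ) - 1) * ((1 - p) / (d * p)) *
        (∑' x, tau p hp (x : Fin d → ℤ) - 1) := by
  have hp0 : (0 : ℝ) < p := by exact_mod_cast h0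
  have hp1 : (p : ℝ) ≤ 1 := by exact_mod_cast hp
  have hd' : (0 : ℝ) < d := by exact_mod_cast hd
  set c : ℝ := max 0 ((2 * d - 1) * (p : ℝ) - 1) * ((1 - p) / (2 * d * p)) with hc
  have hq : 0 ≤ (1 - (p : ℝ)) / (2 * d * p) := div_nonneg (by linarith) (by positivity)
  have hc0 : 0 ≤ c := mul_nonneg (le_max_left _ _) hq
  have hcx : ∀ x : Fin d → ℤ, x ≠ 0 →
      tau p hp x - (1 / (2 * d : ℝ)) * ∑ j, tau p hp (nb x j) ≤ c * tau p hp x := by
    intro x hx
    have h1 := compare p hp h0 x hx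
    have h2 : (1 / (2 * d : ℝ)) * ((1 / (p : ℝ) + (2 * d - 1) * p) * tau p hp x) ≤
        (1 / (2 * d : ℝ)) * ∑ j, tau p hp (nb x j) :=
      mul_le_mul_of_nonneg_left h1 (by positivity)
    have h3 : 1 - (1 / (2 * d : ℝ)) * (1 / (p : ℝ) + (2 * d - 1) * p) =
        ((2 * d - 1) * (p : ℝ) - 1) * ((1 - p) / (2 * d * p)) := by
      field_simp
      ring
    have h4 : ((2 * d - 1) * (p : ℝ) - 1) * ((1 - p) / (2 * d * p)) ≤ c :=
      mul_le_mul_of_nonneg_right (le_max_right _ _) hq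
    have h5 : (1 - (1 / (2 * d : ℝ)) * (1 / (p : ℝ) + (2 * d - 1) * p)) * tau p hp x ≤
        c * tau p hp x := mul_le_mul_of_nonneg_right (h3 ▸ h4) (tau_nonneg p hp x)
    linarith
  have h := fourier_bound (tau p hp : (Fin d → ℤ) → ℝ) hd (tau_nonneg p hp) hs c hcx hc0 k
  rw [tau_zero] at h
  have h6 : (p : ℝ) ≤ (1 / (2 * d : ℝ)) * ∑ j : Fin d × Bool, tau p hp (nb (0 : Fin d → ℤ) j) := by
    have h7 : ∑ j : Fin d × Bool, (p : ℝ) ≤
        ∑ j : Fin d × Bool, tau p hp (nb (0 : Fin d → ℤ) j) :=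
      Finset.sum_le_sum fun j _ => tau_nb_zero p hp j
    rw [Finset.sum_const, Finset.card_univ, Fintype.card_prod, Fintype.card_fin,
      Fintype.card_bool, nsmul_eq_mul] at h7
    push_cast at h7
    calc (p : ℝ) = (1 / (2 * d : ℝ)) * ((d : ℝ) * 2 * p) := by field_simp
      _ ≤ _ := mul_le_mul_of_nonneg_left h7 (by positivity)
  have h8 : 2 * c = max 0 ((2 * d - 1) * (p : ℝ) - 1) * ((1 - p) / (d * p)) := by
    rw [hc]
    field_simp
  rw [h8] at h
  linarith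

end Pool.Agent.K4H30.PC
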