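import Pool.Agent.K4H30.PC.Comp

/-! Bond percolation on `ℤ^d`: from the comparison to the infrared bound. -/

set_option autoImplicit false
open MeasureTheory ProbabilityTheory

namespace Pool.Agent.K4H30.PC

variable {d : ℕ}

/-- `k · x` -/
noncomputable def dot (k : Fin d → ℝ) (x : Fin d → ℤ) : ℝ := ∑ i : Fin d, k i * (x i : ℝ)

theorem dot_nb (k : Fin d → ℝ) (x : Fin d → ℤ) (j : Fin d × Bool) :
    dot k (nb x j) = dot k x + (if j.2 then k j.1 else - k j.1) := by
  obtain ⟨i, b⟩ := j
  have h : ∀ s : ℝ, ∑ l : Fin d, k l * ((x l : ℝ) + s * (Pi.single i (1 : ℝ) : Fin d → ℝ) l) =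
      ∑ l : Fin d, k l * (x l : ℝ) + s * k i := by
    intro s
    have : ∀ l, k l * ((x l : ℝ) + s * (Pi.single i (1 : ℝ) : Fin d → ℝ) l) =
        k l * (x l : ℝ) + (Pi.single i (s * k i) : Fin d → ℝ) l := by
      intro l
      by_cases hl : l = i
      · subst hl; simp; ring
      · simp [hl]
    rw [Finset.sum_congr rfl fun l _ => this l, Finset.sum_add_distrib, Finset.sum_pi_single']
    simp
  have hc : ∀ l, (((Pi.single i (1 : ℤ) : Fin d → ℤ) l : ℤ) : ℝ) =
      (Pi.single i (1 : ℝ) : Fin d → ℝ) l := by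
    intro l
    by_cases hl : l = i
    · subst hl; simp
    · simp [hl]
  cases b
  · simp only [dot, nb, Bool.false_eq_true, if_false, Pi.sub_apply, Int.cast_sub, hc]
    have := h (-1)
    simp only [neg_mul, one_mul, ← sub_eq_add_neg] at this
    exact this
  · simp only [dot, nb, if_true, Pi.add_apply, Int.cast_add, hc]
    have := h 1
    simp only [one_mul] at this
    exact this

theorem nb_bij (j : Fin d × Bool) : Function.Bijective (fun x : Fin d → ℤ => nb x j) := by
  have h2 : ∀ x : Fin d → ℤ, nb (nb x (fl j)) j = x := by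
    intro x
    have := nb_fl x (fl j)
    have e : fl (fl j) = j := by simp [fl]
    rwa [e] at this
  exact ⟨Function.LeftInverse.injective (g := fun x => nb x (fl j)) fun x => nb_fl x j,
    Function.RightInverse.surjective (g := fun x => nb x (fl j)) h2⟩

/-- An abstract form: a nonnegative summable function with `s g(x) ≤ ∑ g(y) / 2d + c g(x)`. -/
theorem fourier_bound (g : (Fin d → ℤ) → ℝ) (hd : 0 < d) (hg : ∀ x, 0 ≤ g x) (hs : Summable g)
    (c : ℝ) (hc : ∀ x, x ≠ 0 → g x - (1 / (2 * d : ℝ)) * ∑ j, g (nb x j) ≤ c * g x) (hc0 : 0 ≤ c)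
    (k : Fin d → ℝ) :
    (∑' x, g x * Real.cos (dot k x)) * (1 - (1 / (d : ℝ)) * ∑ i : Fin d, Real.cos (k i)) ≤
      2 * (g 0 - (1 / (2 * d : ℝ)) * ∑ j, g (nb 0 j)) + 2 * c * (∑' x, g x - g 0) := by
  have hd' : (0 : ℝ) < d := by exact_mod_cast hd
  set u : (Fin d → ℤ) → ℝ := fun x => g x - (1 / (2 * d : ℝ)) * ∑ j, g (nb x j) with hu
  have hgn : ∀ j, Summable fun x => g (nb x j) := fun j =>
    (Equiv.ofBijective _ (nb_bij j)).summable_iff.2 hs
  have hgnc : ∀ j, Summable fun x => g (nb x j) * Real.cos (dot k x) := fun j => by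
    refine Summable.of_norm_bounded (hgn j) fun x => ?_
    rw [norm_mul, Real.norm_of_nonneg (hg _), Real.norm_eq_abs]
    exact mul_le_of_le_one_right (hg _) (Real.abs_cos_le_one _)
  have hgc : Summable fun x => g x * Real.cos (dot k x) := by
    refine Summable.of_norm_bounded hs fun x => ?_
    rw [norm_mul, Real.norm_of_nonneg (hg _), Real.norm_eq_abs]
    exact mul_le_of_le_one_right (hg _) (Real.abs_cos_le_one _)
  have hus : Summable u := hs.sub ((summable_sum fun j _ => hgn j).mul_left _)
  have huc : Summable fun x => u x * Real.cos (dot k x) := by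
    refine Summable.of_norm_bounded hus.norm fun x => ?_
    rw [norm_mul]
    exact mul_le_of_le_one_right (norm_nonneg _) (by
      rw [Real.norm_eq_abs]; exact Real.abs_cos_le_one _)
  -- the sum over all `x` of `u` is `0`
  have hshift : ∀ (F : (Fin d → ℤ) → ℝ) (j : Fin d × Bool), ∑' x, F (nb x j) = ∑' x, F x :=
    fun F j => (Equiv.ofBijective _ (nb_bij j)).tsum_eq F
  have hu0 : ∑' x, u x = 0 := by
    rw [hu, hs.tsum_sub ((summable_sum fun j _ => hgn j).mul_left _), tsum_mul_left,
      (Summable.tsum_finsetSum fun j _ => hgn j)]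
    simp only [hshift g]
    rw [Finset.sum_const, Finset.card_univ, Fintype.card_prod, Fintype.card_fin,
      Fintype.card_bool, nsmul_eq_mul]
    push_cast
    field_simp
    ring
  -- the transform of `u`
  have hsin : Summable fun x => g x * Real.sin (dot k x) := by
    refine Summable.of_norm_bounded hs fun x => ?_
    rw [norm_mul, Real.norm_of_nonneg (hg _), Real.norm_eq_abs]
    exact mul_le_of_le_one_right (hg _) (Real.abs_sin_le_one _)
  have hj : ∀ j : Fin d × Bool, ∑' x, g (nb x j) * Real.cos (dot k x) =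
      Real.cos (k j.1) * ∑' x, g x * Real.cos (dot k x) +
        (if j.2 then 1 else -1) * (Real.sin (k j.1) * ∑' x, g x * Real.sin (dot k x)) := by
    intro j
    have e1 : ∀ x, g (nb x j) * Real.cos (dot k x) =
        (fun y => g y * Real.cos (dot k y - (if j.2 then k j.1 else - k j.1))) (nb x j) := by
      intro x
      simp only [dot_nb]
      congr 2
      ring
    rw [tsum_congr e1,
      hshift (fun y => g y * Real.cos (dot k y - (if j.2 then k j.1 else - k j.1))) j,
      ← tsum_mul_left, ← tsum_mul_left, ← tsum_mul_left,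
      ← (hgc.mul_left _).tsum_add (((hsin.mul_left _)).mul_left _)]
    refine tsum_congr fun x => ?_
    rw [Real.cos_sub]
    cases j.2
    · simp only [Bool.false_eq_true, if_false, Real.cos_neg, Real.sin_neg]
      ring
    · simp only [if_true]
      ring
  have hj2 : ∑ j : Fin d × Bool, ∑' x, g (nb x j) * Real.cos (dot k x) =
      2 * (∑ i : Fin d, Real.cos (k i)) * ∑' x, g x * Real.cos (dot k x) := by
    simp only [hj]
    rw [Fintype.sum_prod_type]
    simp only [Fintype.sum_bool, if_true, Bool.false_eq_true, if_false]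
    rw [Finset.mul_sum, Finset.sum_mul]
    refine Finset.sum_congr rfl fun i _ => ?_
    ring
  have htr : ∑' x, u x * Real.cos (dot k x) =
      (∑' x, g x * Real.cos (dot k x)) * (1 - (1 / (d : ℝ)) * ∑ i : Fin d, Real.cos (k i)) := by
    have e1 : ∀ x, u x * Real.cos (dot k x) = g x * Real.cos (dot k x) -
        (1 / (2 * d : ℝ)) * ∑ j, g (nb x j) * Real.cos (dot k x) := by
      intro x
      rw [hu, ← Finset.sum_mul]
      ring
    rw [tsum_congr e1, hgc.tsum_sub ((summable_sum fun j _ => hgnc j).mul_left _), tsum_mul_left,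
      (Summable.tsum_finsetSum fun j _ => hgnc j), hj2]
    field_simp
  rw [← htr]
  -- the bound
  have hb : ∀ x, u x * Real.cos (dot k x) ≤
      (2 * (Pi.single (0 : Fin d → ℤ) (u 0) : (Fin d → ℤ) → ℝ) x - u x) +
        2 * c * (g x - (Pi.single (0 : Fin d → ℤ) (g 0) : (Fin d → ℤ) → ℝ) x) := by
    intro x
    have hcos := Real.neg_one_le_cos (dot k x)
    have hcos' := Real.cos_le_one (dot k x)
    by_cases hx : x = 0
    · subst hx
      have : Real.cos (dot k 0) = 1 := by simp [dot]
      rw [this]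
      simp only [Pi.single_eq_same]
      linarith
    · rw [Pi.single_eq_of_ne hx, Pi.single_eq_of_ne hx]
      have h1 : u x ≤ c * g x := hc x hx
      have h2 : 0 ≤ c * g x := mul_nonneg hc0 (hg x)
      rcases le_or_gt 0 (u x) with h3 | h3
      · nlinarith
      · nlinarith
  have hsingle : ∀ a : ℝ, HasSum (Pi.single (0 : Fin d → ℤ) a : (Fin d → ℤ) → ℝ) a := fun a =>
    hasSum_pi_single 0 a
  have hR : HasSum (fun x => (2 * (Pi.single (0 : Fin d → ℤ) (u 0) : (Fin d → ℤ) → ℝ) x - u x) +
        2 * c * (g x - (Pi.single (0 : Fin d → ℤ) (g 0) : (Fin d → ℤ) → ℝ) x))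
      ((2 * u 0 - ∑' x, u x) + 2 * c * (∑' x, g x - g 0)) :=
    (((hsingle _).mul_left 2).sub hus.hasSum).add
      ((hs.hasSum.sub (hsingle _)).mul_left (2 * c))
  refine (huc.tsum_le_tsum hb hR.summable).trans ?_
  rw [hR.tsum_eq, hu0, sub_zero]

end Pool.Agent.K4H30.PC
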