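import Mathlib

/-! Bond percolation on `ℤ^d`: the cluster of `0` seen from one vertex `x`. -/

set_option autoImplicit false

namespace Pool.Agent.K4H30.PC

variable {d : ℕ}

/-- The configurations: `ω (a, i)` tells whether the edge from `a` to `a + e_i` is open. -/
abbrev Om (d : ℕ) := (Fin d → ℤ) × Fin d → Bool

/-- The graph of the open edges. -/
def G (ω : Om d) : SimpleGraph (Fin d → ℤ) :=
  SimpleGraph.fromRel (fun a b : Fin d → ℤ =>
    ∃ i : Fin d, b = a + Pi.single i (1 : ℤ) ∧ ω (a, i) = true)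

/-- The `2 d` neighbours of `x`. -/
def nb (x : Fin d → ℤ) (j : Fin d × Bool) : Fin d → ℤ :=
  if j.2 then x + Pi.single j.1 (1 : ℤ) else x - Pi.single j.1 (1 : ℤ)

/-- The edge between `x` and `nb x j`. -/
def ed (x : Fin d → ℤ) (j : Fin d × Bool) : (Fin d → ℤ) × Fin d :=
  if j.2 then (x, j.1) else (x - Pi.single j.1 (1 : ℤ), j.1)

/-- The opposite direction. -/
def fl (j : Fin d × Bool) : Fin d × Bool := (j.1, !j.2)

theorem single_ne (i : Fin d) : (Pi.single i (1 : ℤ) : Fin d → ℤ) ≠ 0 := by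
  intro h
  have := congrFun h i
  simp at this

theorem nb_fl (x : Fin d → ℤ) (j : Fin d × Bool) : nb (nb x j) (fl j) = x := by
  obtain ⟨i, b⟩ := j
  cases b <;> simp [nb, fl]

theorem ed_fl (x : Fin d → ℤ) (j : Fin d × Bool) : ed (nb x j) (fl j) = ed x j := by
  obtain ⟨i, b⟩ := j
  cases b <;> simp [nb, fl, ed]

theorem nb_ne (x : Fin d → ℤ) (j : Fin d × Bool) : nb x j ≠ x := by
  obtain ⟨i, b⟩ := j
  cases b
  · simp only [nb, Bool.false_eq_true, if_false]
    intro h
    exact single_ne i (by simpa using h)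
  · simp only [nb, if_true]
    intro h
    exact single_ne i (by simpa using h)

theorem ed_inj (x : Fin d → ℤ) : Function.Injective (ed x) := by
  rintro ⟨i, b⟩ ⟨i', b'⟩ h
  cases b <;> cases b' <;>
    simp only [ed, if_true, Bool.false_eq_true, if_false, Prod.mk.injEq] at h
  · rw [h.2]
  · exfalso
    exact single_ne i (by simpa using h.1)
  · exfalso
    exact single_ne i' (by simpa using h.1.symm)
  · rw [h.2]

theorem adj_iff (ω : Om d) (x y : Fin d → ℤ) :
    (G ω).Adj x y ↔ ∃ j, y = nb x j ∧ ω (ed x j) = true := by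
  unfold G
  rw [SimpleGraph.fromRel_adj]
  constructor
  · rintro ⟨-, ⟨i, rfl, h⟩ | ⟨i, rfl, h⟩⟩
    · exact ⟨(i, true), by simp [nb], by simpa [ed] using h⟩
    · exact ⟨(i, false), by simp [nb], by simpa [ed] using h⟩
  · rintro ⟨⟨i, b⟩, rfl, h⟩
    refine ⟨(nb_ne x (i, b)).symm, ?_⟩
    cases b
    · right
      exact ⟨i, by simp [nb], by simpa [nb, ed] using h⟩
    · left
      exact ⟨i, by simp [nb], by simpa [ed] using h⟩

theorem ed_mem (a x : Fin d → ℤ) (j : Fin d × Bool) :
    ed a j ∈ Set.range (ed x) ↔ a = x ∨ nb a j = x := by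
  constructor
  · rintro ⟨⟨i', b'⟩, h⟩
    obtain ⟨i, b⟩ := j
    cases b <;> cases b' <;>
      simp only [ed, nb, if_true, Bool.false_eq_true, if_false, Prod.mk.injEq] at h ⊢
    · obtain ⟨h1, rfl⟩ := h
      left
      exact (sub_left_injective h1).symm
    · exact Or.inr h.1.symm
    · obtain ⟨h1, rfl⟩ := h
      right
      rw [← h1]
      abel
    · exact Or.inl h.1.symm
  · rintro (rfl | rfl)
    · exact ⟨j, rfl⟩
    · exact ⟨fl j, ed_fl a j⟩

open Classical in
/-- The configuration with the edges at `x` closed. -/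
noncomputable def rm (x : Fin d → ℤ) (ω : Om d) : Om d :=
  fun e => if e ∈ Set.range (ed x) then false else ω e

theorem adj_rm (x : Fin d → ℤ) (ω : Om d) (a b : Fin d → ℤ) :
    (G (rm x ω)).Adj a b ↔ (G ω).Adj a b ∧ a ≠ x ∧ b ≠ x := by
  rw [adj_iff, adj_iff]
  constructor
  · rintro ⟨j, rfl, h⟩
    unfold rm at h
    split_ifs at h with h1
    rw [ed_mem] at h1
    push Not at h1
    exact ⟨⟨j, rfl, h⟩, h1.1, h1.2⟩
  · rintro ⟨⟨j, rfl, h⟩, h1, h2⟩
    refine ⟨j, rfl, ?_⟩
    unfold rm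
    rw [if_neg (by rw [ed_mem]; push Not; exact ⟨h1, h2⟩)]
    exact h

theorem rm_le (x : Fin d → ℤ) (ω : Om d) : G (rm x ω) ≤ G ω := fun a b h =>
  ((adj_rm x ω a b).1 h).1

theorem not_reach (x : Fin d → ℤ) (hx : x ≠ 0) (ω : Om d) : ¬ (G (rm x ω)).Reachable 0 x := by
  intro h
  rw [SimpleGraph.reachable_iff_reflTransGen] at h
  rcases Relation.ReflTransGen.cases_tail h with h1 | ⟨c, -, hc⟩
  · exact hx h1
  · exact ((adj_rm x ω c x).1 hc).2.2 rfl

/-- `0 ↔ x` if and only if some neighbour of `x` is connected to `0` off `x` and joined to `x` by an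
open edge. -/
theorem fact1 (x : Fin d → ℤ) (hx : x ≠ 0) (ω : Om d) :
    (G ω).Reachable 0 x ↔
      ∃ j, (G (rm x ω)).Reachable 0 (nb x j) ∧ ω (ed x j) = true := by
  constructor
  · intro h
    by_contra hcon
    push Not at hcon
    have key : ∀ v, Relation.ReflTransGen (G ω).Adj 0 v → (G (rm x ω)).Reachable 0 v := by
      intro v hv
      induction hv with
      | refl => exact SimpleGraph.Reachable.refl _
      | @tail b c _ hbc ih =>
        have hbx : b ≠ x := by
          intro hb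
          rw [hb] at ih
          exact not_reach x hx ω ih
        by_cases hcx : c = x
        · exfalso
          rw [hcx] at hbc
          obtain ⟨j, hj, hj'⟩ := (adj_iff ω x b).1 hbc.symm
          rw [hj] at ih
          exact hcon j ih hj'
        · exact ih.trans ((adj_rm x ω b c).2 ⟨hbc, hbx, hcx⟩).reachable
    exact not_reach x hx ω (key x ((SimpleGraph.reachable_iff_reflTransGen _ _).1 h))
  · rintro ⟨j, h1, h2⟩
    exact (h1.mono (rm_le x ω)).trans ((adj_iff ω x (nb x j)).2 ⟨j, rfl, h2⟩).symm.reachable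

theorem fact2 (x y : Fin d → ℤ) (ω : Om d) (h : (G (rm x ω)).Reachable 0 y) :
    (G ω).Reachable 0 y := h.mono (rm_le x ω)

theorem fact3 (x : Fin d → ℤ) (ω : Om d) (j : Fin d × Bool)
    (h : ∃ j', (G (rm x ω)).Reachable 0 (nb x j') ∧ ω (ed x j') = true)
    (hj : ω (ed x j) = true) : (G ω).Reachable 0 (nb x j) := by
  obtain ⟨j', h1, h2⟩ := h
  exact ((h1.mono (rm_le x ω)).trans
    ((adj_iff ω x (nb x j')).2 ⟨j', rfl, h2⟩).symm.reachable).trans
    ((adj_iff ω x (nb x j)).2 ⟨j, rfl, hj⟩).reachable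

end Pool.Agent.K4H30.PC
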