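import Pool.Agent.K4H30.PC.Graph

/-! Bond percolation on `ℤ^d`: the sum of the two-point function over the neighbours of `x`. -/

set_option autoImplicit false
open MeasureTheory ProbabilityTheory

namespace Pool.Agent.K4H30.PC

variable {d : ℕ}

/-- The law of bond percolation with parameter `p`. -/
noncomputable def P (d : ℕ) (p : NNReal) (hp : p ≤ 1) : Measure (Om d) :=
  Measure.infinitePi (fun _ : (Fin d → ℤ) × Fin d => (PMF.bernoulli p hp).toMeasure)

instance (p : NNReal) (hp : p ≤ 1) : IsProbabilityMeasure (P d p hp) := by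
  unfold P; infer_instance

/-! ### Numbers -/

theorem num1 (q : ℝ) (h0 : 0 ≤ q) (h1 : q ≤ 1) (N : ℕ) :
    N * (1 - q) * q ^ N ≤ q * (1 - q ^ N) := by
  induction N with
  | zero => simp
  | succ N ih =>
    have hq : 0 ≤ q ^ N := pow_nonneg h0 N
    have e : q * (1 - q ^ (N + 1)) - (↑(N + 1) : ℝ) * (1 - q) * q ^ (N + 1) =
        (q * (1 - q ^ N) - N * (1 - q) * q ^ N) + N * (1 - q) * q ^ N * (1 - q) := by
      push_cast
      ring
    have h2 : 0 ≤ (N : ℝ) * (1 - q) * q ^ N * (1 - q) := by
      have : 0 ≤ 1 - q := by linarith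
      positivity
    linarith

theorem num2 (p : ℝ) (h0 : 0 ≤ p) (h1 : p ≤ 1) (N : ℕ) :
    (1 - (1 - p) ^ N) * (1 + (N - 1) * p ^ 2) ≤ N * p := by
  induction N with
  | zero => simp
  | succ N ih =>
    have hn := num1 (1 - p) (by linarith) (by linarith) N
    have hq : 0 ≤ (1 - p) ^ N := pow_nonneg (by linarith) N
    have e : (↑(N + 1) : ℝ) * p - (1 - (1 - p) ^ (N + 1)) * (1 + (↑(N + 1) - 1) * p ^ 2) =
        (N * p - (1 - (1 - p) ^ N) * (1 + (N - 1) * p ^ 2)) +
        p * ((1 - p) * (1 - (1 - p) ^ N) - N * p ^ 2 * (1 - p) ^ N) := by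
      push_cast
      ring
    have h2 : (N : ℝ) * p ^ 2 * (1 - p) ^ N ≤ N * (1 - (1 - p)) * (1 - p) ^ N := by
      have h3 : p ^ 2 ≤ p := by nlinarith
      have h4 : (N : ℝ) * p ^ 2 ≤ N * (1 - (1 - p)) := by
        have : (1 - (1 - p)) = p := by ring
        rw [this]
        exact mul_le_mul_of_nonneg_left h3 (Nat.cast_nonneg N)
      exact mul_le_mul_of_nonneg_right h4 hq
    have h5 : 0 ≤ p * ((1 - p) * (1 - (1 - p) ^ N) - N * p ^ 2 * (1 - p) ^ N) :=
      mul_nonneg h0 (by linarith)
    linarith

theorem num3 (p D : ℝ) (h0 : 0 < p) (h1 : p ≤ 1) (N : ℕ) :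
    (1 / p + (D - 1) * p) * (1 - (1 - p) ^ N) ≤ N + (D - N) * (p * (1 - (1 - p) ^ N)) := by
  have h := num2 p h0.le h1 N
  have e : N + (D - N) * (p * (1 - (1 - p) ^ N)) - (1 / p + (D - 1) * p) * (1 - (1 - p) ^ N) =
      (N * p - (1 - (1 - p) ^ N) * (1 + (N - 1) * p ^ 2)) / p := by
    field_simp
    ring
  have : 0 ≤ (N * p - (1 - (1 - p) ^ N) * (1 + (N - 1) * p ^ 2)) / p :=
    div_nonneg (by linarith) h0.le
  linarith

/-! ### Measurability -/

theorem meas_coord (e : (Fin d → ℤ) × Fin d) (b : Bool) : MeasurableSet {ω : Om d | ω e = b} := by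
  have h : Measurable (fun ω : Om d => ω e) := measurable_pi_apply e
  exact h (measurableSet_singleton b)

theorem meas_adj (a b : Fin d → ℤ) : MeasurableSet {ω : Om d | (G ω).Adj a b} := by
  have : {ω : Om d | (G ω).Adj a b} = ⋃ j, {ω : Om d | b = nb a j ∧ ω (ed a j) = true} := by
    ext ω
    simp [adj_iff]
  rw [this]
  refine MeasurableSet.iUnion fun j => ?_
  by_cases h : b = nb a j
  · simp only [h, true_and]
    exact meas_coord _ _
  · simp [h]

theorem meas_walk (n : ℕ) (a b : Fin d → ℤ) :
    MeasurableSet {ω : Om d | ∃ w : (G ω).Walk a b, w.length = n} := by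
  induction n generalizing a with
  | zero =>
    by_cases h : a = b
    · subst h
      have : {ω : Om d | ∃ w : (G ω).Walk a a, w.length = 0} = Set.univ := by
        ext ω
        simp only [Set.mem_setOf_eq, Set.mem_univ, iff_true]
        exact ⟨SimpleGraph.Walk.nil, rfl⟩
      rw [this]
      exact MeasurableSet.univ
    · have : {ω : Om d | ∃ w : (G ω).Walk a b, w.length = 0} = ∅ := by
        ext ω
        simp only [Set.mem_setOf_eq, Set.mem_empty_iff_false, iff_false]
        rintro ⟨w, hw⟩
        exact h (SimpleGraph.Walk.eq_of_length_eq_zero hw)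
      rw [this]
      exact MeasurableSet.empty
  | succ n ih =>
    have : {ω : Om d | ∃ w : (G ω).Walk a b, w.length = n + 1} =
        ⋃ c, {ω : Om d | (G ω).Adj a c} ∩ {ω : Om d | ∃ w : (G ω).Walk c b, w.length = n} := by
      ext ω
      simp only [Set.mem_setOf_eq, Set.mem_iUnion, Set.mem_inter_iff]
      constructor
      · rintro ⟨w, hw⟩
        cases w with
        | nil => simp at hw
        | @cons _ c _ h w' => exact ⟨c, h, w', by simpa using hw⟩
      · rintro ⟨c, h, w', hw⟩
        exact ⟨SimpleGraph.Walk.cons h w', by simp [hw]⟩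
    rw [this]
    exact MeasurableSet.iUnion fun c => (meas_adj a c).inter (ih c)

theorem meas_reach (a b : Fin d → ℤ) : MeasurableSet {ω : Om d | (G ω).Reachable a b} := by
  have : {ω : Om d | (G ω).Reachable a b} =
      ⋃ n : ℕ, {ω : Om d | ∃ w : (G ω).Walk a b, w.length = n} := by
    ext ω
    simp only [Set.mem_setOf_eq, Set.mem_iUnion]
    constructor
    · rintro ⟨w⟩
      exact ⟨w.length, w, rfl⟩
    · rintro ⟨_, w, _⟩
      exact ⟨w⟩
  rw [this]
  exact MeasurableSet.iUnion fun n => meas_walk n a b

/-! ### Independence -/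

/-- The states of the edges at `x`. -/
def star (x : Fin d → ℤ) (ω : Om d) : Fin d × Bool → Bool := fun j => ω (ed x j)

theorem indep_star (p : NNReal) (hp : p ≤ 1) (x : Fin d → ℤ) :
    IndepFun (rm x) (star x) (P d p hp) := by
  have h1 : iIndepFun (fun (e : (Fin d → ℤ) × Fin d) (ω : Om d) => ω e) (P d p hp) :=
    iIndepFun_infinitePi (P := fun _ : (Fin d → ℤ) × Fin d => (PMF.bernoulli p hp).toMeasure)
      (X := fun _ b => b) (fun _ => measurable_id)
  have h2 := indep_iSup_of_disjoint (m := fun e : (Fin d → ℤ) × Fin d =>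
    MeasurableSpace.comap (fun ω : Om d => ω e) inferInstance)
    (fun e => (measurable_pi_apply e).comap_le) h1.iIndep
    (disjoint_compl_left (a := Set.range (ed x)))
  rw [IndepFun_iff_Indep]
  refine indep_of_indep_of_le_left (indep_of_indep_of_le_right h2 ?_) ?_
  · rw [← measurable_iff_comap_le]
    refine (@measurable_pi_iff _ _ _ (_) _ _).2 fun j => ?_
    have hle : MeasurableSpace.comap (fun ω : Om d => ω (ed x j)) inferInstance ≤
        ⨆ e ∈ Set.range (ed x), MeasurableSpace.comap (fun ω : Om d => ω e) inferInstance :=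
      le_iSup₂_of_le (ed x j) ⟨j, rfl⟩ le_rfl
    exact Measurable.mono (comap_measurable _) hle le_rfl
  · rw [← measurable_iff_comap_le]
    refine (@measurable_pi_iff _ _ _ (_) _ _).2 fun e => ?_
    by_cases he : e ∈ Set.range (ed x)
    · have : (fun ω : Om d => rm x ω e) = fun _ => false := by
        funext ω
        unfold rm
        rw [if_pos he]
      rw [this]
      exact measurable_const
    · have : (fun ω : Om d => rm x ω e) = fun ω => ω e := by
        funext ω
        unfold rm
        rw [if_neg he]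
      rw [this]
      have hle : MeasurableSpace.comap (fun ω : Om d => ω e) inferInstance ≤
          ⨆ e ∈ (Set.range (ed x))ᶜ, MeasurableSpace.comap (fun ω : Om d => ω e) inferInstance :=
        le_iSup₂_of_le e he le_rfl
      exact Measurable.mono (comap_measurable _) hle le_rfl

theorem real_cyl (p : NNReal) (hp : p ≤ 1) (x : Fin d → ℤ) (S T : Finset (Fin d × Bool))
    (hST : Disjoint S T) :
    (P d p hp).real {ω | (∀ j ∈ S, ω (ed x j) = true) ∧ ∀ j ∈ T, ω (ed x j) = false} =
      (p : ℝ) ^ S.card * (1 - (p : ℝ)) ^ T.card := by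
  classical
  have hinj := ed_inj x
  set t : (Fin d → ℤ) × Fin d → Set Bool := fun e =>
    if e ∈ S.image (ed x) then {true} else {false} with ht
  have hset : {ω : Om d | (∀ j ∈ S, ω (ed x j) = true) ∧ ∀ j ∈ T, ω (ed x j) = false} =
      Set.pi (((S ∪ T).image (ed x) : Finset _) : Set ((Fin d → ℤ) × Fin d)) t := by
    ext ω
    simp only [Set.mem_setOf_eq, Set.mem_pi, Finset.mem_coe, Finset.mem_image, Finset.mem_union,
      forall_exists_index, and_imp, forall_apply_eq_imp_iff₂]
    constructor
    · rintro ⟨h1, h2⟩ j hj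
      rcases hj with hj | hj
      · have : ed x j ∈ S.image (ed x) := Finset.mem_image_of_mem _ hj
        simp only [ht, if_pos this, Set.mem_singleton_iff]
        exact h1 j hj
      · have : ed x j ∉ S.image (ed x) := by
          rw [Finset.mem_image]
          rintro ⟨j', hj', he⟩
          rw [hinj he] at hj'
          exact Finset.disjoint_left.1 hST hj' hj
        simp only [ht, if_neg this, Set.mem_singleton_iff]
        exact h2 j hj
    · intro h
      refine ⟨fun j hj => ?_, fun j hj => ?_⟩
      · have h3 := h j (Or.inl hj)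
        have : ed x j ∈ S.image (ed x) := Finset.mem_image_of_mem _ hj
        simpa only [ht, if_pos this, Set.mem_singleton_iff] using h3
      · have h3 := h j (Or.inr hj)
        have : ed x j ∉ S.image (ed x) := by
          rw [Finset.mem_image]
          rintro ⟨j', hj', he⟩
          rw [hinj he] at hj'
          exact Finset.disjoint_left.1 hST hj' hj
        simpa only [ht, if_neg this, Set.mem_singleton_iff] using h3
  rw [hset, measureReal_def]
  unfold P
  rw [Measure.infinitePi_pi _ (fun e _ => by simp only [ht]; split_ifs <;> measurability),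
    Finset.prod_image (fun a _ b _ h => hinj h), Finset.prod_union hST]
  have e1 : ∏ j ∈ S, (PMF.bernoulli p hp).toMeasure (t (ed x j)) = (p : ENNReal) ^ S.card := by
    rw [Finset.prod_congr rfl (g := fun _ => (p : ENNReal)), Finset.prod_const]
    intro j hj
    have : ed x j ∈ S.image (ed x) := Finset.mem_image_of_mem _ hj
    simp only [ht, if_pos this]
    rw [PMF.toMeasure_apply_singleton _ _ (measurableSet_singleton _), PMF.bernoulli_apply]
    rfl
  have e2 : ∏ j ∈ T, (PMF.bernoulli p hp).toMeasure (t (ed x j)) =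
      (((1 - p : NNReal)) : ENNReal) ^ T.card := by
    rw [Finset.prod_congr rfl (g := fun _ => (((1 - p : NNReal)) : ENNReal)), Finset.prod_const]
    intro j hj
    have : ed x j ∉ S.image (ed x) := by
      rw [Finset.mem_image]
      rintro ⟨j', hj', he⟩
      rw [hinj he] at hj'
      exact Finset.disjoint_left.1 hST hj' hj
    simp only [ht, if_neg this]
    rw [PMF.toMeasure_apply_singleton _ _ (measurableSet_singleton _), PMF.bernoulli_apply]
    rfl
  rw [e1, e2, ENNReal.toReal_mul, ENNReal.toReal_pow, ENNReal.toReal_pow]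
  rw [ENNReal.coe_toReal, ENNReal.coe_toReal, NNReal.coe_sub hp, NNReal.coe_one]

end Pool.Agent.K4H30.PC
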